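import Pool.Agent.Y165.HN.Stm

/-!
# Project HN, task HN-COUNT: integers with a divisor `(q - 1) / k` for `q` in a thin set
-/

set_option autoImplicit false

namespace Pool.Agent.Y306.HN

open Finset Pool.Agent.Y165.HN

open scoped Classical in
/-- the numbers `n ≤ x` with a divisor `(q - 1) / k` -/
noncomputable def SS (x q k : ℕ) : Finset ℕ :=
  (Ioc 0 x).filter fun n => ∃ d, d ∣ n ∧ q = k * d + 1

open scoped Classical in
/-- the members of the thin set in a dyadic interval -/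
noncomputable def EE (E : Set ℕ) (j : ℕ) : Finset ℕ :=
  (Icc 1 (2 * 2 ^ j)).filter fun q => q ∈ E ∧ 2 ^ j < q

theorem SS_card {x q k K j : ℕ} (hk : 1 ≤ k) (hkK : k ≤ K) (hq : 2 ^ j < q) :
    ((SS x q k).card : ℝ) ≤ x * K / 2 ^ j := by
  classical
  rcases (SS x q k).eq_empty_or_nonempty with h | ⟨n, hn⟩
  · rw [h, card_empty, Nat.cast_zero]
    positivity
  · unfold SS at hn
    rw [mem_filter] at hn
    obtain ⟨hn0, d, hd, hqd⟩ := hn
    have hsub : SS x q k ⊆ (Ioc 0 x).filter (fun n => d ∣ n) := by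
      intro m hm
      unfold SS at hm
      rw [mem_filter] at hm ⊢
      obtain ⟨hm0, d', hd', hqd'⟩ := hm
      have e : k * d = k * d' := by omega
      have e' : d = d' := Nat.eq_of_mul_eq_mul_left hk e
      exact ⟨hm0, e' ▸ hd'⟩
    have h1 : (SS x q k).card ≤ x / d := by
      refine (card_le_card hsub).trans ?_
      rw [Nat.Ioc_filter_dvd_card_eq_div]
    have hKd : 2 ^ j ≤ K * d := by
      have : k * d ≤ K * d := Nat.mul_le_mul_right d hkK
      omega
    have hd0 : 0 < d := by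
      rcases Nat.eq_zero_or_pos d with h0 | h0
      · rw [h0, mul_zero] at hKd
        have : 0 < 2 ^ j := by positivity
        omega
      · exact h0
    have hdR : (0 : ℝ) < d := by exact_mod_cast hd0
    have hKdR : (2 : ℝ) ^ j ≤ K * d := by exact_mod_cast hKd
    calc ((SS x q k).card : ℝ) ≤ ((x / d : ℕ) : ℝ) := by exact_mod_cast h1
      _ ≤ (x : ℝ) / d := Nat.cast_div_le
      _ ≤ x * K / 2 ^ j := by
          rw [div_le_div_iff₀ hdR (by positivity)]
          have hx : (0 : ℝ) ≤ x := Nat.cast_nonneg x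
          calc (x : ℝ) * 2 ^ j ≤ x * (K * d) := mul_le_mul_of_nonneg_left hKdR hx
            _ = x * K * d := by ring

theorem t_COUNT : COUNT := by
  classical
  intro η C K hη hη1
  refine ⟨4 * C * K ^ 2, ?_⟩
  intro E hE x hx B hB
  have hx1 : (1 : ℝ) ≤ x := by exact_mod_cast hx
  have hx0 : (0 : ℝ) < x := by linarith
  set y : ℝ := (x : ℝ) ^ η with hy
  have hy1 : 1 ≤ y := Real.one_le_rpow hx1 hη.le
  obtain ⟨j0, hj1, hj2⟩ := exists_nat_pow_near hy1 (one_lt_two)
  have hEc : ∀ j, (EE E j).card ≤ C := by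
    intro j
    refine hE (2 ^ j) (EE E j) fun q hq => ?_
    unfold EE at hq
    rw [mem_filter, mem_Icc] at hq
    exact ⟨hq.2.1, hq.2.2, hq.1.2⟩
  have hsub : B ⊆ (range (K * x + 1)).biUnion fun i => (EE E (j0 + i)).biUnion fun q =>
      (Icc 1 K).biUnion fun k => SS x q k := by
    intro n hn
    obtain ⟨hn1, hn2, q, hqE, hyq, d, k, hd, hkK, hq⟩ := hB n hn
    have hdx : d ≤ x := (Nat.le_of_dvd (by omega) hd).trans hn2
    have hqy : (2 : ℝ) ^ j0 < q := lt_of_le_of_lt hj1 hyq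
    have hqN : 2 ^ j0 < q := by exact_mod_cast hqy
    have hk1 : 1 ≤ k := by
      rcases Nat.eq_zero_or_pos k with h0 | h0
      · rw [h0, zero_mul] at hq
        have : 0 < 2 ^ j0 := by positivity
        omega
      · exact h0
    have hqK : q ≤ K * x + 1 := by
      rw [hq]
      exact Nat.add_le_add_right (Nat.mul_le_mul hkK hdx) 1
    have hq1 : q - 1 ≠ 0 := by
      have : 0 < 2 ^ j0 := by positivity
      omega
    set j := Nat.log 2 (q - 1) with hj
    have l1 : 2 ^ j ≤ q - 1 := Nat.pow_log_le_self 2 hq1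
    have l2 : q - 1 < 2 ^ (j + 1) := Nat.lt_pow_succ_log_self one_lt_two _
    have l3 : j0 ≤ j := by
      rw [hj]
      exact Nat.le_log_of_pow_le one_lt_two (by omega)
    have l4 : j < K * x + 1 := by
      have : j < 2 ^ j := Nat.lt_two_pow_self
      omega
    rw [mem_biUnion]
    refine ⟨j - j0, by rw [mem_range]; omega, ?_⟩
    rw [mem_biUnion]
    refine ⟨q, ?_, ?_⟩
    · have e : j0 + (j - j0) = j := by omega
      rw [e]
      unfold EE
      rw [mem_filter, mem_Icc]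
      rw [pow_succ] at l2
      refine ⟨⟨by omega, by omega⟩, hqE, by omega⟩
    · rw [mem_biUnion]
      refine ⟨k, mem_Icc.2 ⟨hk1, hkK⟩, ?_⟩
      unfold SS
      rw [mem_filter, mem_Ioc]
      exact ⟨⟨by omega, hn2⟩, d, hd, hq⟩
  have hK0 : (0 : ℝ) ≤ K := Nat.cast_nonneg K
  have hC0 : (0 : ℝ) ≤ C := Nat.cast_nonneg C
  have hcard : (B.card : ℝ) ≤ ∑ i ∈ range (K * x + 1),
      ((C : ℝ) * ((K : ℝ) * ((x : ℝ) * K / 2 ^ (j0 + i)))) := by
    have c1 : B.card ≤ ∑ i ∈ range (K * x + 1), ∑ q ∈ EE E (j0 + i), ∑ k ∈ Icc 1 K,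
        (SS x q k).card := by
      refine (card_le_card hsub).trans (card_biUnion_le.trans (sum_le_sum fun i _ => ?_))
      exact card_biUnion_le.trans (sum_le_sum fun q _ => card_biUnion_le)
    have c2 : (B.card : ℝ) ≤ ∑ i ∈ range (K * x + 1), ∑ q ∈ EE E (j0 + i), ∑ k ∈ Icc 1 K,
        ((SS x q k).card : ℝ) := by exact_mod_cast c1
    refine c2.trans (sum_le_sum fun i _ => ?_)
    calc ∑ q ∈ EE E (j0 + i), ∑ k ∈ Icc 1 K, ((SS x q k).card : ℝ) ≤
        ∑ _q ∈ EE E (j0 + i), ∑ _k ∈ Icc 1 K, ((x : ℝ) * K / 2 ^ (j0 + i)) := by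
          refine sum_le_sum fun q hq => sum_le_sum fun k hk => ?_
          unfold EE at hq
          rw [mem_filter] at hq
          rw [mem_Icc] at hk
          exact SS_card hk.1 hk.2 hq.2.2
      _ = (EE E (j0 + i)).card * (K * ((x : ℝ) * K / 2 ^ (j0 + i))) := by
          rw [sum_const, sum_const, Nat.card_Icc, nsmul_eq_mul, nsmul_eq_mul, Nat.add_sub_cancel]
      _ ≤ C * (K * ((x : ℝ) * K / 2 ^ (j0 + i))) := by
          refine mul_le_mul_of_nonneg_right ?_ (by positivity)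
          exact_mod_cast hEc (j0 + i)
  have hgeo := sum_geometric_two_le (K * x + 1)
  have e1 : ∑ i ∈ range (K * x + 1), (C : ℝ) * (K * (x * K / 2 ^ (j0 + i))) =
      C * K ^ 2 * x / 2 ^ j0 * ∑ i ∈ range (K * x + 1), (1 / (2 : ℝ)) ^ i := by
    rw [mul_sum]
    refine sum_congr rfl fun i _ => ?_
    rw [pow_add, one_div, inv_pow]
    field_simp
  rw [e1] at hcard
  have hy0 : 0 < y := by linarith
  have e2 : (x : ℝ) ^ (1 - η) = x / y := by
    rw [Real.rpow_sub hx0, Real.rpow_one]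
  rw [e2]
  calc (B.card : ℝ) ≤ C * K ^ 2 * x / 2 ^ j0 * ∑ i ∈ range (K * x + 1), (1 / (2 : ℝ)) ^ i := hcard
    _ ≤ C * K ^ 2 * x / 2 ^ j0 * 2 := mul_le_mul_of_nonneg_left hgeo (by positivity)
    _ = C * K ^ 2 * x * (2 / 2 ^ j0) := by ring
    _ ≤ C * K ^ 2 * x * (4 / y) := by
        refine mul_le_mul_of_nonneg_left ?_ (by positivity)
        rw [div_le_div_iff₀ (by positivity) hy0]
        rw [pow_succ] at hj2
        linarith
    _ = 4 * C * K ^ 2 * (x / y) := by ring

end Pool.Agent.Y306.HN
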